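import Pool.Agent.WCub.Main
import Pool.Agent.CUB.BR1

/-!
# A class of varieties with alterations controls all varieties
-/

set_option autoImplicit false

open Polynomial CategoryTheory AlgebraicGeometry TopologicalSpace

namespace WCub

open Pool.Agent.Lib_helper55.Beil CUB

universe v

variable {k : Type} [Field k]

/-- Every point of an affine variety has a finite dimension. -/
lemma exists_dim_aff (A : Type) [CommRing A] [Algebra k A] [Algebra.FiniteType k A]
    (x : (aff k A).X) : ∃ n : ℕ, (aff k A).dim x = n := by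
  obtain ⟨n, hn⟩ := exists_rdim (k := k) (ofPt x)
  exact ⟨n, (dim_toPt (ofPt x)).trans hn⟩

/-- An affine open neighbourhood of a point. -/
lemma exists_nbhd (Y : Var k) (y : Y.X) :
    ∃ (A : Type) (_ : CommRing A) (_ : Algebra k A) (_ : Algebra.FiniteType k A)
      (j : OpenIn (aff k A) Y), y ∈ Set.range j.g := by
  obtain ⟨W, hW, hyW, -⟩ :=
    exists_isAffineOpen_mem_and_subset (X := Y.X) (U := ⊤) (x := y) trivial
  have haff : IsAffine (openVar Y W).X := hW
  obtain ⟨A, i1, i2, i3, ⟨s⟩⟩ := exists_aff (openVar Y W)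
  have h1 : y ∈ Set.range (openVarIn Y W).g := by
    rw [range_openVarIn]
    exact hyW
  obtain ⟨w, hw⟩ := h1
  have hop := (openVarIn Y W).isOpen
  refine ⟨A, i1, i2, i3, ⟨s.e.hom ≫ (openVarIn Y W).g, ?_, inferInstance⟩, ?_⟩
  · rw [Category.assoc, (openVarIn Y W).comm, s.comm]
  · refine ⟨s.e.inv w, ?_⟩
    change (s.e.hom ≫ (openVarIn Y W).g) (s.e.inv w) = y
    rw [← hw, ← Scheme.Hom.comp_apply, Iso.inv_hom_id_assoc]

/-- Every point of a variety has a finite dimension. -/
lemma exists_dim (Y : Var k) (y : Y.X) : ∃ n : ℕ, Y.dim y = n := by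
  obtain ⟨A, i1, i2, i3, j, x, hx⟩ := exists_nbhd Y y
  have hop := j.isOpen
  obtain ⟨n, hn⟩ := exists_dim_aff (k := k) A x
  exact ⟨n, by rw [← hx, dim_map j.g j.comm, hn]⟩

/-- The dimension of a point other than the generic point is smaller than the dimension. -/
lemma dim_lt_generic (Y : Var k) [AlgebraicGeometry.IsIntegral Y.X] (y : Y.X)
    (h : y ≠ genericPoint Y.X) : Y.dim y < Y.dim (genericPoint Y.X) := by
  obtain ⟨A, i1, i2, i3, j, x, hx⟩ := exists_nbhd Y y
  have hop := j.isOpen
  have hne : Nonempty (aff k A).X := ⟨x⟩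
  have hint := j.isIntegral hne
  rw [← hx, ← j.generic, dim_map j.g j.comm, dim_map j.g j.comm]
  have h1 : x ≠ genericPoint (aff k A).X := by
    rintro rfl
    exact h (by rw [← hx, j.generic])
  have h2 : ofPt (genericPoint (aff k A).X) ≤ ofPt x := by
    rw [PrimeSpectrum.le_iff_specializes]
    exact genericPoint_specializes x
  have h3 : ofPt (genericPoint (aff k A).X) < ofPt x := lt_of_le_of_ne h2 fun hcon => h1 hcon.symm
  have h4 := rdim_lt (k := k) h3
  rw [← dim_toPt, ← dim_toPt, toPt_ofPt, toPt_ofPt] at h4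
  exact h4

/-- A proper closed subvariety of an integral variety of dimension `n + 1` has dimension at most
`n`. -/
lemma dimLE_closed (Y : Var k) [AlgebraicGeometry.IsIntegral Y.X] (n : ℕ)
    (hd : Y.dim (genericPoint Y.X) = (n + 1 : ℕ)) (D : Closeds Y.X) (hD : genericPoint Y.X ∉ D) :
    (closedVar Y D).DimLE n := by
  intro z
  have hcl := (closedVarIn Y D).closed
  have h1 : (closedVarIn Y D).g z ≠ genericPoint Y.X := by
    intro hcon
    apply hD
    have h2 : (closedVarIn Y D).g z ∈ (D : Set Y.X) := by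
      rw [← range_closedVarIn]
      exact ⟨z, rfl⟩
    rw [hcon] at h2
    exact h2
  have h2 := dim_lt_generic Y _ h1
  rw [dim_map (closedVarIn Y D).g (closedVarIn Y D).comm, hd] at h2
  obtain ⟨m, hm⟩ := exists_dim (closedVar Y D) z
  rw [hm] at h2 ⊢
  rw [Nat.cast_lt] at h2
  rw [Nat.cast_le]
  omega

/-- A proper closed subvariety of an integral variety of dimension zero is empty. -/
lemma isEmpty_closed (Y : Var k) [AlgebraicGeometry.IsIntegral Y.X]
    (hd : Y.dim (genericPoint Y.X) = (0 : ℕ)) (D : Closeds Y.X) (hD : genericPoint Y.X ∉ D) :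
    IsEmpty (closedVar Y D).X := by
  constructor
  intro z
  have h1 : (closedVarIn Y D).g z ≠ genericPoint Y.X := by
    intro hcon
    apply hD
    have h2 : (closedVarIn Y D).g z ∈ (D : Set Y.X) := by
      rw [← range_closedVarIn]
      exact ⟨z, rfl⟩
    rw [hcon] at h2
    exact h2
  have h2 := dim_lt_generic Y _ h1
  rw [hd] at h2
  obtain ⟨m, hm⟩ := exists_dim Y ((closedVarIn Y D).g z)
  rw [hm, Nat.cast_lt] at h2
  omega

lemma dimLE_range {Z X : Var k} (g : Z.X ⟶ X.X) (comm : g ≫ X.f = Z.f) [IsPreimmersion g] (n : ℕ)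
    (h : X.DimLE n) : Z.DimLE n := fun z => by
  rw [← dim_map g comm]
  exact h _

/-- Every variety has finite dimension. -/
lemma exists_dimLE [PerfectField k] (X : Var k) : ∃ n : ℕ, X.DimLE n := by
  refine induct (fun X => ∃ n : ℕ, X.DimLE n) ?_ ?_ ?_ X ⊤ X (𝟙 _) (Category.id_comp _)
    inferInstance (fun _ => trivial)
  · intro X he
    exact ⟨0, fun x => (he.false x).elim⟩
  · rintro Z U X a j hc ⟨n, hn⟩ ⟨m, hm⟩
    have hcl := a.closed
    have hop := j.isOpen
    refine ⟨max n m, fun x => ?_⟩
    by_cases hx : x ∈ Set.range a.g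
    · obtain ⟨z, rfl⟩ := hx
      rw [dim_map a.g a.comm]
      exact (hn z).trans (by exact_mod_cast le_max_left n m)
    · have hx' : x ∈ Set.range j.g := by
        by_contra hcon
        apply hx
        rw [Complementary] at hc
        rw [hc]
        exact hcon
      obtain ⟨u, rfl⟩ := hx'
      rw [dim_map j.g j.comm]
      exact (hm u).trans (by exact_mod_cast le_max_right n m)
  · intro V _ _ _ _
    obtain ⟨n, hn⟩ := exists_dim V (genericPoint V.X)
    exact ⟨n, fun x => (dim_le_of_specializes V (genericPoint_specializes x)).trans hn.le⟩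

variable {Λ : Type} [CommRing Λ] (T : Theory.{v} k Λ)

variable [IsNoetherianRing Λ]

/-- If the groups are finitely generated for a class of varieties with alterations, and for all
degrees `e` in a set stable under `e ↦ e - 1`, then they are for all varieties. -/
theorem all_of_class [PerfectField k] (P : Var k → Prop) (hA : Alterations P) (hT : T.Transfer)
    (S : Set ℤ) (hS : ∀ e, e + 1 ∈ S → e ∈ S) (h : ∀ e ∈ S, T.Class P e) (d : ℕ) :
    ∀ X : Var k, X.DimLE d → ∀ e ∈ S, ∀ b : ℕ, T.FG e b X := by
  induction d using Nat.strong_induction_on with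
  | h d ih =>
  intro X hX
  refine induct (fun X => X.DimLE d → ∀ e ∈ S, ∀ b : ℕ, T.FG e b X) ?_ ?_ ?_ X ⊤ X (𝟙 _)
    (Category.id_comp _) inferInstance (fun _ => trivial) hX
  · intro X he _ e _ b
    exact T.fg_empty e b X he
  · intro Z U X a j hc hZ hU hX e he b
    have hcl := a.closed
    have hop := j.isOpen
    exact T.fg_glue e b a j hc (hZ (dimLE_range a.g a.comm d hX) e he b)
      (hU (dimLE_range j.g j.comm d hX) e he b)
  · intro V hint haff hsm hD hV e' he' b
    obtain ⟨n, hn⟩ := exists_dim V (genericPoint V.X)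
    obtain ⟨U', W, Y, hY, j, π, l, hne, hdY, hPY⟩ := hA V hint n hn
    have hnd : n ≤ d := by
      have := hV (genericPoint V.X)
      rw [hn] at this
      exact_mod_cast this
    have hneW : Nonempty W.X := by
      obtain ⟨u⟩ := hne
      have := π.surj
      obtain ⟨w, -⟩ := π.g.surjective u
      exact ⟨w⟩
    have hDY : genericPoint Y.X ∉ complC l := fun hcon => hcon (generic_mem_range l hneW)
    have hZ : ∀ e ∈ S, T.FG e b (closedVar Y (complC l)) := by
      intro e he
      rcases n with _ | n
      · exact T.fg_empty e b _ (isEmpty_closed Y hdY _ hDY)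
      · exact ih n (by omega) _ (dimLE_closed Y n hdY _ hDY) e he b
    obtain ⟨e, rfl⟩ : ∃ e, e' = e + 1 := ⟨e' - 1, by ring⟩
    have he := hS e he'
    have h1 : T.FG (e + 1) b W :=
      T.fg_open e b (closedVarIn Y (complC l)) l (complementary_complC l) (h (e + 1) he' b Y hPY)
        (hZ e he)
    have h2 : T.FG (e + 1) b U' := T.fg_transfer hT (e + 1) b π h1
    have hDV : genericPoint V.X ∉ complC j := fun hcon => hcon (generic_mem_range j hne)
    have hcl := (closedVarIn V (complC j)).closed
    exact T.fg_glue (e + 1) b (closedVarIn V (complC j)) j (complementary_complC j)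
      (hD (complC j) hDV (dimLE_range _ (closedVarIn V (complC j)).comm d hV) (e + 1) he' b) h2

/-- For a class of varieties with alterations: finite generation in all degrees `e ≤ e₀` is
equivalent to that of the smooth cubic hypersurfaces. -/
theorem class_iff [Finite k] (P : Var k → Prop) (hA : Alterations P) (hT : T.Transfer)
    (e₀ : WithTop ℤ) :
    (∀ e : ℤ, (e : WithTop ℤ) ≤ e₀ → T.Class P e) ↔
      ∀ e : ℤ, (e : WithTop ℤ) ≤ e₀ → T.Cubics e := by
  constructor
  · intro h e he
    rw [← one_group]
    intro b X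
    obtain ⟨d, hd⟩ := exists_dimLE X
    refine all_of_class T P hA hT {e : ℤ | (e : WithTop ℤ) ≤ e₀} ?_ h d X hd e he b
    intro e he
    rw [Set.mem_ofPred_eq] at he ⊢
    exact le_trans (WithTop.coe_le_coe.mpr (Int.lt_succ e).le) he
  · intro h e he b X _
    exact (one_group T e).mpr (h e he) b X

theorem middle_iff [Finite k] (P : Var k → Prop) (hA : Alterations P) (hT : T.Transfer)
    (e₁ : ℤ) (hM : T.Middle P e₁) : (∀ e : ℤ, T.Class P e) ↔ T.Cubics e₁ := by
  constructor
  · intro h
    exact (class_iff T P hA hT ⊤).mp (fun e _ => h e) e₁ le_top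
  · intro h
    exact hM fun b X _ => (one_group T e₁).mpr h b X

end WCub
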