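import Pool.Agent.WCub.Defs
import Pool.Agent.CUB.Bridge

/-!
# Weil-etale Borel-Moore homology: finite generation and localisation
-/

set_option autoImplicit false

open Polynomial CategoryTheory AlgebraicGeometry TopologicalSpace

namespace WCub

open Pool.Agent.Lib_helper55.Beil CUB

universe v

section Alg

variable {Λ M N Q : Type*} [CommRing Λ] [IsNoetherianRing Λ] [AddCommGroup M] [Module Λ M]
  [AddCommGroup N] [Module Λ N] [AddCommGroup Q] [Module Λ Q]

/-- A module is finitely generated if the kernel and the target of a map are. -/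
lemma finite_of_ker_finite (g : N →ₗ[Λ] Q) (hQ : Module.Finite Λ Q)
    (h1 : Module.Finite Λ (LinearMap.ker g)) : Module.Finite Λ N := by
  have h3 : Module.Finite Λ (N ⧸ LinearMap.ker g) :=
    Module.Finite.equiv g.quotKerEquivRange.symm
  exact Module.Finite.of_submodule_quotient (LinearMap.ker g)

/-- The middle term of an exact sequence is finitely generated if the outer terms are. -/
lemma finite_of_exact (f : M →ₗ[Λ] N) (g : N →ₗ[Λ] Q) (h : Function.Exact f g)
    (hM : Module.Finite Λ M) (hQ : Module.Finite Λ Q) : Module.Finite Λ N := by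
  apply finite_of_ker_finite g hQ
  have h2 : LinearMap.ker g = LinearMap.range f := (LinearMap.exact_iff.mp h)
  rw [h2]
  infer_instance

/-- If the kernel of a map to a finitely generated module is killed by `m`, and the set of the
elements killed by `m` is finite, then the source is finitely generated. -/
lemma finite_of_torsion (g : N →ₗ[Λ] Q) (hQ : Module.Finite Λ Q) (m : ℕ)
    (hm : {x : N | m • x = 0}.Finite) (h : ∀ x, g x = 0 → m • x = 0) : Module.Finite Λ N := by
  apply finite_of_ker_finite g hQ
  have h1 : ((LinearMap.ker g : Submodule Λ N) : Set N).Finite := hm.subset fun x hx => h x hx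
  have h2 : Finite (LinearMap.ker g) := h1.to_subtype
  infer_instance

end Alg

/-- Isomorphisms in the two sets of definitions. -/
def toIsom {k : Type} [Field k] {X Y : Var k} (s : VIso X Y) : Isom X Y := ⟨s.e, s.comm⟩

/-- Lines in the two sets of definitions. -/
def toLine {k : Type} [Field k] {Y X : Var k} (l : Line Y X) : AffineLine Y X :=
  ⟨l.q, l.t, l.comm, l.prod⟩

lemma hypersurface_eq {k : Type} [Field k] {N : ℕ} (F : MvPolynomial (Fin N) k) :
    hypersurface F = cubic F := rfl

variable {k : Type} [Field k] {Λ : Type} [CommRing Λ] (T : Theory.{v} k Λ)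

lemma Theory.push_id (e : ℤ) (b : ℕ) {X : Var k} (a : ClosedIn X X) (h : a.g = 𝟙 X.X)
    (m : T.H e b X) : T.push e b a m = m := T.functorial.1 e b X a h m

lemma Theory.push_comp (e : ℤ) (b : ℕ) {W Z X : Var k} (a : ClosedIn W Z) (c : ClosedIn Z X)
    (d : ClosedIn W X) (h : a.g ≫ c.g = d.g) (m : T.H e b W) :
    T.push e b c (T.push e b a m) = T.push e b d m := T.functorial.2.1 e b W Z X a c d h m

lemma Theory.clopen (e : ℤ) (b : ℕ) {Z X : Var k} (a : ClosedIn Z X) (j : OpenIn Z X)
    (h : a.g = j.g) (m : T.H e b Z) : T.res e b j (T.push e b a m) = m :=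
  T.functorial.2.2 e b Z X a j h m

lemma Theory.exact_U (e : ℤ) (b : ℕ) {Z U X : Var k} (a : ClosedIn Z X) (j : OpenIn U X)
    (h : Complementary a j) : Function.Exact (T.res (e + 1) b j) (T.bd e b a j h) :=
  (T.localisation e b Z U X a j h).1

lemma Theory.exact_Z (e : ℤ) (b : ℕ) {Z U X : Var k} (a : ClosedIn Z X) (j : OpenIn U X)
    (h : Complementary a j) : Function.Exact (T.bd e b a j h) (T.push e b a) :=
  (T.localisation e b Z U X a j h).2.1

lemma Theory.exact_X (e : ℤ) (b : ℕ) {Z U X : Var k} (a : ClosedIn Z X) (j : OpenIn U X)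
    (h : Complementary a j) : Function.Exact (T.push e b a) (T.res e b j) :=
  (T.localisation e b Z U X a j h).2.2

/-- The homology of the empty variety. -/
lemma Theory.empty (e : ℤ) (b : ℕ) (X : Var k) (h : IsEmpty X.X) : Subsingleton (T.H e b X) := by
  let a : ClosedIn X X := (VIso.refl X).cl
  let j : OpenIn X X := ⟨𝟙 _, Category.id_comp _, inferInstance⟩
  have hc : Complementary a j := by
    ext x
    exact (h.false x).elim
  refine subsingleton_of_forall_eq 0 fun x => ?_
  have h1 := T.clopen e b a j rfl x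
  rw [(T.exact_X e b a j hc).apply_apply_eq_zero] at h1
  exact h1.symm

/-- Push-forward along a closed immersion which is bijective on points is bijective. -/
lemma Theory.push_bijective (e : ℤ) (b : ℕ) {Z X : Var k} (a : ClosedIn Z X)
    (h : Set.range a.g = Set.univ) : Function.Bijective (T.push e b a) := by
  have hc : Complementary a (openVarIn X ⊥) := by
    rw [Complementary, h, range_openVarIn]
    simp
  have he := isEmpty_openVar_bot X
  have i1 : Subsingleton (T.H e b (openVar X ⊥)) := T.empty e b _ he
  have i2 : Subsingleton (T.H (e + 1) b (openVar X ⊥)) := T.empty (e + 1) b _ he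
  constructor
  · rw [injective_iff_map_eq_zero]
    intro m hm
    obtain ⟨u, hu⟩ := (T.exact_Z e b a _ hc m).mp hm
    rw [← hu, Subsingleton.elim u 0, map_zero]
  · intro m
    exact (T.exact_X e b a _ hc m).mp (Subsingleton.elim _ _)

lemma Theory.push_viso_bijective (e : ℤ) (b : ℕ) {X Y : Var k} (s : VIso X Y) :
    Function.Bijective (T.push e b s.cl) := T.push_bijective e b s.cl s.range

/-- The isomorphism of the homology groups defined by a closed immersion which is bijective on
points. -/
noncomputable def Theory.pushEquiv (e : ℤ) (b : ℕ) {Z X : Var k} (a : ClosedIn Z X)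
    (h : Set.range a.g = Set.univ) : T.H e b Z ≃ₗ[Λ] T.H e b X :=
  LinearEquiv.ofBijective (T.push e b a) (T.push_bijective e b a h)

lemma Theory.fg_iff_of_range (e : ℤ) (b : ℕ) {Z X : Var k} (a : ClosedIn Z X)
    (h : Set.range a.g = Set.univ) : T.FG e b Z ↔ T.FG e b X :=
  Module.Finite.equiv_iff (T.pushEquiv e b a h)

lemma Theory.fg_viso (e : ℤ) (b : ℕ) {X Y : Var k} (s : VIso X Y) : T.FG e b X ↔ T.FG e b Y :=
  T.fg_iff_of_range e b s.cl s.range

lemma Theory.fg_empty (e : ℤ) (b : ℕ) (X : Var k) (h : IsEmpty X.X) : T.FG e b X := by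
  have := T.empty e b X h
  unfold Theory.FG
  infer_instance

variable [IsNoetherianRing Λ]

lemma Theory.fg_glue (e : ℤ) (b : ℕ) {Z U X : Var k} (a : ClosedIn Z X) (j : OpenIn U X)
    (h : Complementary a j) (hZ : T.FG e b Z) (hU : T.FG e b U) : T.FG e b X :=
  finite_of_exact _ _ (T.exact_X e b a j h) hZ hU

lemma Theory.fg_open (e : ℤ) (b : ℕ) {Z U X : Var k} (a : ClosedIn Z X) (j : OpenIn U X)
    (h : Complementary a j) (hX : T.FG (e + 1) b X) (hZ : T.FG e b Z) : T.FG (e + 1) b U :=
  finite_of_exact _ _ (T.exact_U e b a j h) hX hZ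

lemma Theory.fg_transfer (hT : T.Transfer) (e : ℤ) (b : ℕ) {V U : Var k} (g : FiniteEtale V U)
    (hV : T.FG e b V) : T.FG e b U := by
  obtain ⟨t, m, hm, h⟩ := hT e b V U g
  exact finite_of_torsion (id t : T.H e b U →ₗ[Λ] T.H e b V) hV m (T.torsion e b U m hm) h

end WCub
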