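import Pool.Agent.WCub.Step

/-!
# Anti-invariant homology classes of double covers: several equations
-/

set_option autoImplicit false

open Polynomial CategoryTheory AlgebraicGeometry

namespace WCub

open Pool.Agent.Lib_helper55.Beil CUB

universe v

variable {k : Type} [Field k] {Λ : Type} [CommRing Λ] (T : Theory.{v} k Λ)

section VRs

variable {R R₁ R' : Type} [CommRing R] [CommRing R₁] [CommRing R'] [Algebra k R] [Algebra k R₁]
  [Algebra k R'] [Algebra.FiniteType k R] [Algebra.FiniteType k R₁] [Algebra.FiniteType k R']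

/-- The involution commutes with the push-forward. -/
lemma P_tau_VRmap (e : ℤ) (b : ℕ) {m : ℕ} (f : Fin m → R) (ψ : R →ₐ[k] R')
    (hψ : Function.Surjective ψ) (α : T.H e b (aff k (VR R' (fun j => ψ (f j))))) :
    T.push e b (vcl (tau (lin f))) (T.push e b (clo (VRmap ψ f) (VRmap_surjective ψ hψ f)) α) =
      T.push e b (clo (VRmap ψ f) (VRmap_surjective ψ hψ f))
        (T.push e b (vcl (tau (lin fun j => ψ (f j)))) α) := by
  have hs : Function.Surjective ((VRmap ψ f).comp (tauH (k := k) (lin f))) :=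
    (VRmap_surjective ψ hψ f).comp (tauH_surjective (k := k) (lin f))
  have h1 := T.push_comp e b (clo (VRmap ψ f) (VRmap_surjective ψ hψ f))
    (vcl (tau (k := k) (lin f))) (clo ((VRmap ψ f).comp (tauH (k := k) (lin f))) hs)
    (spm_comp (tauH (k := k) (lin f)) (VRmap ψ f)) α
  have h2 := T.push_comp e b (vcl (tau (k := k) (lin fun j => ψ (f j))))
    (clo (VRmap ψ f) (VRmap_surjective ψ hψ f)) (clo ((VRmap ψ f).comp (tauH (k := k) (lin f))) hs)
    (by
      change spm (tauH (k := k) (lin fun j => ψ (f j))) ≫ spm (VRmap ψ f) = spm _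
      rw [spm_comp]
      congr 1
      exact AlgHom.ext fun x => (VRmap_tau f ψ x).symm) α
  exact h1.trans h2.symm

/-- The square of the involution is the identity. -/
lemma P_tau_tau (e : ℤ) (b : ℕ) {A : Type} [CommRing A] [Algebra k A] [Algebra.FiniteType k A]
    (g : A) (α : T.H e b (aff k (Q A g))) :
    T.push e b (vcl (tau (k := k) g)) (T.push e b (vcl (tau (k := k) g)) α) = α := by
  have h1 : (tauH (k := k) g).comp (tauH (k := k) g) = AlgHom.id k _ := tauHom_comp g
  have h2 := T.push_comp e b (vcl (tau (k := k) g)) (vcl (tau (k := k) g))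
    (clo (AlgHom.id k (Q A g)) Function.surjective_id)
    (by
      change spm (tauH (k := k) g) ≫ spm (tauH (k := k) g) = spm (AlgHom.id k (Q A g))
      rw [spm_comp, h1]) α
  exact h2.trans (T.push_id e b _ spm_id α)

/-- Push-forward along a composition. -/
lemma P_VRmap_comp (e : ℤ) (b : ℕ) {m : ℕ} (f : Fin m → R) (π : R →ₐ[k] R₁) (ψ : R₁ →ₐ[k] R')
    (hπ : Function.Surjective π) (hψ : Function.Surjective ψ)
    (hψπ : Function.Surjective (ψ.comp π))
    (α : T.H e b (aff k (VR R' (fun j => ψ (π (f j)))))) :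
    T.push e b (clo (VRmap π f) (VRmap_surjective π hπ f))
      (T.push e b (clo (VRmap ψ (fun j => π (f j))) (VRmap_surjective ψ hψ _)) α) =
      T.push e b (clo (VRmap (ψ.comp π) f) (VRmap_surjective (ψ.comp π) hψπ f)) α := by
  apply T.push_comp
  change spm (VRmap ψ (fun j => π (f j))) ≫ spm (VRmap π f) = spm (VRmap (ψ.comp π) f)
  rw [spm_comp]
  exact congrArg spm (VRmap_comp f π ψ)

end VRs

/-- Several equations. -/
theorem hchain (e : ℤ) (b m : ℕ) (L : List (Fin (m + 1))) :
    ∀ {R R' : Type} [CommRing R] [CommRing R'] [Algebra k R]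
    [Algebra k R'] [Algebra.FiniteType k R] [Algebra.FiniteType k R']
    (f : Fin (m + 1) → R) (ψ : R →ₐ[k] R') (hψ : Function.Surjective ψ),
    RingHom.ker ψ.toRingHom = Ideal.span (f '' {j | j ∈ L}) →
    ∀ α : T.H e (b + 1) (aff k (VR R' (fun j => ψ (f j)))),
    T.push e (b + 1) (vcl (tau (lin fun j => ψ (f j)))) α = -α →
    T.push e (b + 1) (clo (VRmap ψ f) (VRmap_surjective ψ hψ f)) α = 0 →
    2 ^ L.length • α = 0 := by
  induction L with
  | nil =>
    intro R R' _ _ _ _ _ _ f ψ hψ hk α _ hz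
    have h1 : RingHom.ker (VRmap ψ f).toRingHom = ⊥ := by
      rw [t_KERQ.2.2.1 k R R' (m + 1) f ψ, hk]
      simp
    have h2 : Function.Injective (VRmap ψ f) := (RingHom.injective_iff_ker_eq_bot _).mpr h1
    let ε : VR R f ≃ₐ[k] VR R' (fun j => ψ (f j)) :=
      AlgEquiv.ofBijective (VRmap ψ f) ⟨h2, VRmap_surjective ψ hψ f⟩
    have h3 := (T.push_viso_bijective e (b + 1) (viso ε)).injective
    have h4 : α = 0 := by
      apply h3
      rw [map_zero]
      exact hz
    rw [h4, smul_zero]
  | cons l L ih =>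
    intro R R' _ _ _ _ _ _ f ψ hψ hk α ht hz
    let I : Ideal R := Ideal.span {f l}
    let π : R →ₐ[k] R ⧸ I := Ideal.Quotient.mkₐ k I
    have hle : I ≤ RingHom.ker ψ.toRingHom := by
      rw [hk]
      apply Ideal.span_mono
      rintro _ rfl
      exact ⟨l, by simp, rfl⟩
    let ψ₁ : (R ⧸ I) →ₐ[k] R' := Ideal.Quotient.liftₐ I ψ (fun a ha => hle ha)
    have hπ : Function.Surjective π := Ideal.Quotient.mkₐ_surjective k I
    have hcomp : ψ = ψ₁.comp π := by
      ext x
      rfl
    have hkπ : RingHom.ker π.toRingHom = Ideal.span {f l} := Ideal.mk_ker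
    clear_value ψ₁ π
    subst hcomp
    have hψ₁ : Function.Surjective ψ₁ := by
      intro x
      obtain ⟨y, hy⟩ := hψ x
      exact ⟨π y, hy⟩
    have hk₁ : RingHom.ker ψ₁.toRingHom = Ideal.span ((fun j => π (f j)) '' {j | j ∈ L}) := by
      have h1 : RingHom.ker ψ₁.toRingHom =
          (RingHom.ker (ψ₁.comp π).toRingHom).map π.toRingHom := by
        have h2 : RingHom.ker (ψ₁.comp π).toRingHom =
          (RingHom.ker ψ₁.toRingHom).comap π.toRingHom := rfl
        rw [h2]
        exact (Ideal.map_comap_of_surjective π.toRingHom hπ _).symm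
      rw [h1, hk, Ideal.map_span]
      apply le_antisymm
      · rw [Ideal.span_le]
        rintro _ ⟨_, ⟨j, hj, rfl⟩, rfl⟩
        rcases List.mem_cons.mp hj with rfl | hj
        · have h3 : π (f j) = 0 := by
            have : f j ∈ RingHom.ker π.toRingHom := by
              rw [hkπ]; exact Ideal.subset_span rfl
            exact this
          have h4 : π.toRingHom (f j) = 0 := h3
          rw [h4]
          exact Ideal.zero_mem _
        · exact Ideal.subset_span ⟨j, hj, rfl⟩
      · apply Ideal.span_mono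
        rintro _ ⟨j, hj, rfl⟩
        exact ⟨f j, ⟨j, List.mem_cons_of_mem _ hj, rfl⟩, rfl⟩
    have key : 2 • T.push e (b + 1)
        (clo (VRmap ψ₁ (fun j => π (f j))) (VRmap_surjective ψ₁ hψ₁ _)) α = 0 := by
      refine hstep T e b m f l π hπ hkπ _ ?_ ?_
      · rw [P_tau_VRmap T e (b + 1) (fun j => π (f j)) ψ₁ hψ₁ α]
        have ht' : T.push e (b + 1) (vcl (tau (lin fun j => ψ₁ (π (f j))))) α = -α := ht
        exact (congrArg _ ht').trans (map_neg _ α)
      · rw [P_VRmap_comp T e (b + 1) f π ψ₁ hπ hψ₁ hψ α]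
        exact hz
    have h5 : ∀ α' : T.H e (b + 1) (aff k (VR R' (fun j => ψ₁ (π (f j))))),
        T.push e (b + 1) (vcl (tau (lin fun j => ψ₁ (π (f j))))) α' = -α' →
        2 • T.push e (b + 1) (clo (VRmap ψ₁ (fun j => π (f j))) (VRmap_surjective ψ₁ hψ₁ _)) α' =
          0 → 2 ^ L.length • (2 • α') = 0 := by
      intro α' h6 h7
      refine ih (fun j => π (f j)) ψ₁ hψ₁ hk₁ (2 • α') ?_ ?_
      · rw [map_nsmul, h6, smul_neg]
      · rw [map_nsmul]
        exact h7
    have h8 := h5 α ht key
    rw [List.length_cons, pow_succ, mul_smul]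
    exact h8

end WCub
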