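import Pool.Agent.Lib_helper55.Beil.Defs

/-!
# Weil-etale Borel-Moore homology of varieties over a finite field

The example is the Weil-etale Borel-Moore motivic homology (etale motives) with coefficients in
`Λ = ℤ[1/p]`: `H e b X = H_(2b+e)(X, ℤ[1/p](b))`; for a smooth variety `X` of pure dimension `d` and
`n = d - b` it is the Weil-etale motivic cohomology group `H_W^(2n-e)(X, ℤ[1/p](n))`, where for
`n < 0` the complex `ℤ[1/p](n)` is the sum of the `ℚ_l/ℤ_l(n)[-1]`, `l ≠ p` (Geisser's convention).
-/

set_option autoImplicit false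

open CategoryTheory AlgebraicGeometry

namespace WCub

open Pool.Agent.Lib_helper55.Beil

universe v

section Geometry

variable {k : Type} [Field k]

/-- An isomorphism of varieties over `k`. -/
structure Isom (X Y : Var k) where
  /-- the isomorphism -/
  e : X.X ≅ Y.X
  comm : e.hom ≫ Y.f = X.f

/-- An isomorphism as a closed immersion. -/
def Isom.cl {X Y : Var k} (s : Isom X Y) : ClosedIn X Y where
  g := s.e.hom
  comm := s.comm
  closed := inferInstance

/-- `Y` is the product of `X` and the affine line, with projections `q` and `t`. -/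
structure AffineLine (Y X : Var k) where
  /-- the projection to `X` -/
  q : Y.X ⟶ X.X
  /-- the projection to the affine line -/
  t : Y.X ⟶ Spec (CommRingCat.of (Polynomial k))
  comm : q ≫ X.f = Y.f
  prod : IsPullback q t X.f (Spec.map (CommRingCat.ofHom (algebraMap k (Polynomial k))))

/-- A finite etale surjective morphism `V → U`. -/
structure FiniteEtale (V U : Var k) where
  /-- the morphism -/
  g : V.X ⟶ U.X
  comm : g ≫ U.f = V.f
  finite : IsFinite g
  etale : Etale g
  surj : Surjective g

open Polynomial in
/-- The affine hypersurface `y ^ 2 - y = F(x_1, ..., x_N)`. -/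
noncomputable def hypersurface {N : ℕ} (F : MvPolynomial (Fin N) k) : Var k where
  X := Spec (CommRingCat.of (AdjoinRoot (X ^ 2 - X - C F : (MvPolynomial (Fin N) k)[X])))
  f := Spec.map (CommRingCat.ofHom (algebraMap k _))
  sep := inferInstance
  lft := (HasRingHomProperty.Spec_iff (P := @LocallyOfFiniteType)).2
    (RingHom.finiteType_algebraMap.2
      (Algebra.FiniteType.trans (inferInstance : Algebra.FiniteType k (MvPolynomial (Fin N) k))
        inferInstance))
  qc := inferInstance

/-- The theorem of de Jong on alterations for the class `P` of varieties: every integral variety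
`U` of dimension `d` has a nonempty open subvariety `U'` with a finite etale covering `V` which is
an open subvariety of an integral variety `Y` of dimension `d` in the class `P`. -/
def Alterations (P : Var k → Prop) : Prop :=
  ∀ (U : Var k) (_ : IsIntegral U.X) (d : ℕ), U.dim (genericPoint U.X) = d →
    ∃ (U' V Y : Var k) (_ : IsIntegral Y.X) (_ : OpenIn U' U) (_ : FiniteEtale V U')
      (_ : OpenIn V Y), Nonempty U'.X ∧ Y.dim (genericPoint Y.X) = d ∧ P Y

end Geometry

/-- Modules `H e b X` over the ring `Λ`, one for each integer `e`, each natural number `b` and each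
variety `X`; the example is `H_(2b+e)(X, ℤ[1/p](b))`. -/
structure Groups (k : Type) [Field k] (Λ : Type) [CommRing Λ] where
  /-- the homology groups -/
  H : ℤ → ℕ → Var k → Type v
  [grp : ∀ e b X, AddCommGroup (H e b X)]
  [mod : ∀ e b X, Module Λ (H e b X)]

attribute [instance] Groups.grp Groups.mod

/-- The groups together with the push-forward along closed immersions, the restriction to open
subvarieties, the boundary maps of the localisation sequences, and the pull-back along the
projection of the product of a variety with the affine line. -/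
structure Maps (k : Type) [Field k] (Λ : Type) [CommRing Λ] extends Groups.{v} k Λ where
  /-- push-forward along closed immersions -/
  push : ∀ (e : ℤ) (b : ℕ) {Z X : Var k}, ClosedIn Z X → (H e b Z →ₗ[Λ] H e b X)
  /-- restriction to open subvarieties -/
  res : ∀ (e : ℤ) (b : ℕ) {U X : Var k}, OpenIn U X → (H e b X →ₗ[Λ] H e b U)
  /-- the boundary map -/
  bd : ∀ (e : ℤ) (b : ℕ) {Z U X : Var k} (a : ClosedIn Z X) (j : OpenIn U X),
    Complementary a j → (H (e + 1) b U →ₗ[Λ] H e b Z)
  /-- the pull-back along the projection `q : X × 𝔸¹ → X` -/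
  line : ∀ (e : ℤ) (b : ℕ) {Y X : Var k}, AffineLine Y X → (H e b X →ₗ[Λ] H e (b + 1) Y)

variable {k : Type} [Field k] {Λ : Type} [CommRing Λ]

/-- Push-forward of a homology class. -/
def Maps.P (T : Maps.{v} k Λ) (e : ℤ) (b : ℕ) {Z X : Var k} (a : ClosedIn Z X) (m : T.H e b Z) :
    T.H e b X := T.push e b a m

/-- Restriction of a homology class. -/
def Maps.R (T : Maps.{v} k Λ) (e : ℤ) (b : ℕ) {U X : Var k} (j : OpenIn U X) (m : T.H e b X) :
    T.H e b U := T.res e b j m

/-- Boundary of a homology class. -/
def Maps.D (T : Maps.{v} k Λ) (e : ℤ) (b : ℕ) {Z U X : Var k} (a : ClosedIn Z X) (j : OpenIn U X)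
    (h : Complementary a j) (m : T.H (e + 1) b U) : T.H e b Z := T.bd e b a j h m

/-- Pull-back of a homology class to the product with the affine line. -/
def Maps.L (T : Maps.{v} k Λ) (e : ℤ) (b : ℕ) {Y X : Var k} (l : AffineLine Y X)
    (m : T.H e b X) : T.H e (b + 1) Y := T.line e b l m

/-- The push-forward is functorial, and for an immersion which is both open and closed the
restriction is a left inverse of the push-forward. -/
def Maps.Functorial (T : Maps.{v} k Λ) : Prop :=
  (∀ e b (X : Var k) (a : ClosedIn X X), a.g = 𝟙 X.X → ∀ m, T.P e b a m = m) ∧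
  (∀ e b (W Z X : Var k) (a : ClosedIn W Z) (c : ClosedIn Z X) (d : ClosedIn W X),
    a.g ≫ c.g = d.g → ∀ m, T.P e b c (T.P e b a m) = T.P e b d m) ∧
  ∀ e b (Z X : Var k) (a : ClosedIn Z X) (j : OpenIn Z X), a.g = j.g →
    ∀ m, T.R e b j (T.P e b a m) = m

/-- For a closed subvariety `Z` of `X` with complement `U` the sequence
`H (e+1) b X → H (e+1) b U → H e b Z → H e b X → H e b U` is exact. -/
def Maps.Localisation (T : Maps.{v} k Λ) : Prop :=
  ∀ e b (Z U X : Var k) (a : ClosedIn Z X) (j : OpenIn U X) (h : Complementary a j),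
    Function.Exact (T.R (e + 1) b j) (T.D e b a j h) ∧
    Function.Exact (T.D e b a j h) (T.P e b a) ∧ Function.Exact (T.P e b a) (T.R e b j)

/-- The boundary maps are natural for isomorphisms. -/
def Maps.BoundaryNatural (T : Maps.{v} k Λ) : Prop :=
  ∀ e b (Z U X Z' U' X' : Var k) (a : ClosedIn Z X) (j : OpenIn U X)
    (h : Complementary a j) (a' : ClosedIn Z' X') (j' : OpenIn U' X') (h' : Complementary a' j')
    (sZ : Isom Z Z') (sU : Isom U U') (sX : Isom X X'),
    sZ.e.hom ≫ a'.g = a.g ≫ sX.e.hom → sU.e.hom ≫ j'.g = j.g ≫ sX.e.hom →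
    ∀ u, T.P e b sZ.cl (T.D e b a j h u) = T.D e b a' j' h' (T.P (e + 1) b sU.cl u)

/-- Homotopy invariance: the pull-back `H e b X → H e (b+1) (X × 𝔸¹)` is bijective; and it is
natural for isomorphisms. -/
def Maps.Homotopy (T : Maps.{v} k Λ) : Prop :=
  (∀ e b (Y X : Var k) (l : AffineLine Y X), Function.Bijective (T.L e b l)) ∧
  ∀ e b (Y X Y' X' : Var k) (l : AffineLine Y X) (l' : AffineLine Y' X') (sY : Isom Y Y')
    (sX : Isom X X'), sY.e.hom ≫ l'.q = l.q ≫ sX.e.hom →
    ∀ m, T.P e (b + 1) sY.cl (T.L e b l m) = T.L e b l' (T.P e b sX.cl m)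

/-- The elements killed by a positive integer `m` are finite in number (for ℤ[1/p]-coefficients:
the homology with finite coefficients of order prime to `p` is finite). -/
def Maps.FiniteTorsion (T : Maps.{v} k Λ) : Prop :=
  ∀ e b (X : Var k) (m : ℕ), 0 < m → {x : T.H e b X | m • x = 0}.Finite

/-- A theory: the example is Weil-etale Borel-Moore motivic homology with coefficients in
`Λ = ℤ[1/p]`. -/
structure Theory (k : Type) [Field k] (Λ : Type) [CommRing Λ] extends Maps.{v} k Λ where
  functorial : toMaps.Functorial
  localisation : toMaps.Localisation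
  natural : toMaps.BoundaryNatural
  homotopy : toMaps.Homotopy
  torsion : toMaps.FiniteTorsion

/-- The linear maps from `H e b X` to `H e b Y`. -/
def Lin (T : Theory.{v} k Λ) (e : ℤ) (b : ℕ) (X Y : Var k) : Type v := T.H e b X →ₗ[Λ] T.H e b Y

/-- The value of a linear map from `H e b X` to `H e b Y`. -/
def Lin.app {T : Theory.{v} k Λ} {e : ℤ} {b : ℕ} {X Y : Var k} (f : Lin T e b X Y)
    (x : T.H e b X) : T.H e b Y := (id f : T.H e b X →ₗ[Λ] T.H e b Y) x

/-- Transfer: for a finite etale surjective morphism `V → U` the kernel of the pull-back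
`H e b U → H e b V` is killed by a positive integer (the degree). -/
def Theory.Transfer (T : Theory.{v} k Λ) : Prop :=
  ∀ e b (V U : Var k), FiniteEtale V U →
    ∃ (t : Lin T e b U V) (m : ℕ), 0 < m ∧ ∀ x, t.app x = 0 → m • x = 0

/-- The group `H e b X` is finitely generated over `Λ`. -/
def Theory.FG (T : Theory.{v} k Λ) (e : ℤ) (b : ℕ) (X : Var k) : Prop :=
  Module.Finite Λ (T.H e b X)

/-- The groups `H e b X` are finitely generated for the varieties `X` of the class `P` and
all `b`. -/
def Theory.Class (T : Theory.{v} k Λ) (P : Var k → Prop) (e : ℤ) : Prop :=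
  ∀ (b : ℕ) (X : Var k), P X → T.FG e b X

/-- The groups `H e b V` are finitely generated for the smooth cubic hypersurfaces
`V : y ^ 2 - y = F(x_1, ..., x_3n)` and `b = 2 n`. -/
def Theory.Cubics (T : Theory.{v} k Λ) (e : ℤ) : Prop :=
  ∀ (n : ℕ) (F : MvPolynomial (Fin (3 * n)) k), F.totalDegree ≤ 3 → Smooth (hypersurface F).f →
    T.FG e (2 * n) (hypersurface F)

/-- The groups with `e = e₁` of the varieties of the class `P` control all the groups of these
varieties. -/
def Theory.Middle (T : Theory.{v} k Λ) (P : Var k → Prop) (e₁ : ℤ) : Prop :=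
  T.Class P e₁ → ∀ e : ℤ, T.Class P e

end WCub
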