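import Pool.Agent.WCub.Alt
import Pool.Agent.CUBH.Main3

/-!
# Cubic hypersurfaces given by sparse hypergraphs
-/

set_option autoImplicit false

open CategoryTheory AlgebraicGeometry

namespace WCub

open Pool.Agent.Lib_helper55.Beil CUB

universe v

variable {k : Type} [Field k] {Λ : Type} [CommRing Λ]

/-- The groups `H e b V` are finitely generated for `b = 2 n` and the smooth hypersurfaces
`V : y ^ 2 - y = ∑_{e ∈ H} ∏_{v ∈ e} x_v + ∑_v c_v x_v`, where `H` is a sparse hypergraph with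
the vertices `1, ..., 3n` and all `c_v` are zero or elements of `B`. -/
def Theory.Hypergraphs (T : Theory.{v} k Λ) (B : Set k) (e : ℤ) : Prop :=
  ∀ (n : ℕ) (H : Finset (Finset (Fin (3 * n)))) (c : Fin (3 * n) → k), Sparse H →
    (∀ v, c v = 0 ∨ c v ∈ B) → Smooth (hypersurface (hyp H c)).f →
    T.FG e (2 * n) (hypersurface (hyp H c))

variable (T : Theory.{v} k Λ) [IsNoetherianRing Λ]

theorem affine_of_hypergraphs [Finite k] (B : Set k) (hB : Subring.closure B = ⊤) (e : ℤ)
    (h : T.Hypergraphs B e) (b : ℕ) (A : Type) [CommRing A] [Algebra k A]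
    [Algebra.FiniteType k A] : T.FG e b (aff k A) := by
  obtain ⟨n, N, m, h3n, h2, -, f', φ', H', b', hφ', hk', hf', hc'⟩ :=
    HG.exists_good k A B hB (Set.toFinite B) b
  obtain ⟨H, c, h1, h0, ⟨ε⟩⟩ := HG.cuv3 k B N (m + 1) n h3n f' H' b' hf' hc'
  have hs : Smooth (cubic (hyp H c)).f := t_SMI k _ _ ε.symm (t_SMO t_VRL k _ _ f')
  have h3 : T.FG e (2 * n) (cubic (hyp H c)) := h n H c h1 h0 hs
  rw [h2] at h3
  exact red T e b m f' φ' hφ' hk' ((T.fg_viso e _ (viso ε)).mpr h3)

theorem hypergraphs_iff [Finite k] (B : Set k) (hB : Subring.closure B = ⊤) (e : ℤ) :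
    T.Hypergraphs B e ↔ T.Cubics e := by
  constructor
  · intro h
    rw [← one_group]
    intro b X
    refine induct (T.FG e b) (T.fg_empty e b) (fun a j hc hZ hU => T.fg_glue e b a j hc hZ hU)
      ?_ X ⊤ X (𝟙 _) (Category.id_comp _) inferInstance (fun _ => trivial)
    intro V _ hV _ _
    obtain ⟨A, _, _, _, ⟨s⟩⟩ := exists_aff V
    exact (T.fg_viso e b s).mp (affine_of_hypergraphs T B hB e h b A)
  · intro h n H c hH _ hs
    refine h n (hyp H c) ?_ hs
    exact HG.hyp_totalDegree H c hH.1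

end WCub
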