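import Pool.Agent.WCub.Red
import Pool.Agent.CUB.V_QUAD
import Pool.Agent.CUB.V_PAD
import Pool.Agent.CUB.V_CUV
import Pool.Agent.CUB.V_SMO
import Pool.Agent.CUB.V_SMI

/-!
# From smooth cubic hypersurfaces to all varieties
-/

set_option autoImplicit false

open Polynomial CategoryTheory AlgebraicGeometry TopologicalSpace

namespace WCub

open Pool.Agent.Lib_helper55.Beil CUB

universe v

variable {k : Type} [Field k]

/-- Noetherian induction: a property of varieties which holds for a smooth affine integral variety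
as soon as it holds for its proper closed subvarieties, and which can be glued, holds for all
varieties. -/
lemma induct [PerfectField k] (Pr : Var k → Prop) (hE : ∀ X : Var k, IsEmpty X.X → Pr X)
    (hG : ∀ {Z U X : Var k} (a : ClosedIn Z X) (j : OpenIn U X), Complementary a j →
      Pr Z → Pr U → Pr X)
    (hN : ∀ (V : Var k) (_ : IsIntegral V.X), IsAffine V.X → Smooth V.f →
      (∀ D : Closeds V.X, genericPoint V.X ∉ D → Pr (closedVar V D)) → Pr V)
    (X₀ : Var k) (C : Closeds X₀.X) :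
    ∀ (Y : Var k) (g : Y.X ⟶ X₀.X), g ≫ X₀.f = Y.f → IsPreimmersion g → (∀ y, g y ∈ C) →
      Pr Y := by
  induction C using WellFoundedLT.induction with
  | ind C ih =>
  intro Y g comm hg hC
  have hR : ∀ X : Var k, Pr (redVar X) → Pr X := fun X h =>
    hG (redVarIn X) (openVarIn X ⊥) (complementary_red X) h (hE _ (isEmpty_openVar_bot X))
  apply hR
  have hred := isReduced_redVar Y
  have hcl := (redVarIn Y).closed
  set Y' := redVar Y
  set g' : Y'.X ⟶ X₀.X := (redVarIn Y).g ≫ g
  have comm' : g' ≫ X₀.f = Y'.f := by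
    rw [Category.assoc, comm, (redVarIn Y).comm]
  have hC' : ∀ y, g' y ∈ C := fun y => hC _
  rcases isEmpty_or_nonempty Y'.X with he | ⟨⟨x⟩⟩
  · exact hE _ he
  obtain ⟨η, -, hη⟩ := exists_maximal Y' x
  obtain ⟨U, hU1, -, hU3, hU4, hU5, hU6⟩ := exists_nice Y' η hη ⊤ trivial
  have hop := (openVarIn Y' U).isOpen
  have key : ∀ (W : Var k) (l : W.X ⟶ X₀.X), l ≫ X₀.f = W.f → IsPreimmersion l →
      (∀ y, l y ∈ C) → ∀ (D : Closeds W.X) (y₀ : W.X), y₀ ∉ D →
      Pr (closedVar W D) := by
    intro W l hl1 hl2 hl3 D y₀ hy₀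
    have hcl := (closedVarIn W D).closed
    refine ih (Closeds.closure (l '' (D : Set W.X))) (lt_of_closed l C hl3 D y₀ hy₀)
      (closedVar W D) ((closedVarIn W D).g ≫ l) ?_ inferInstance ?_
    · rw [Category.assoc, hl1, (closedVarIn W D).comm]
    · intro y
      have h1 : (closedVarIn W D).g y ∈ (D : Set W.X) := by
        rw [← range_closedVarIn]
        exact ⟨y, rfl⟩
      exact subset_closure ⟨_, h1, rfl⟩
  refine hG (closedVarIn Y' U.compl) (openVarIn Y' U) (complementary_open Y' U) ?_ ?_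
  · exact key Y' g' comm' inferInstance hC' U.compl η (fun hcon => hcon hU1)
  · refine hN (openVar Y' U) hU5 hU3 hU4 ?_
    intro D hD
    refine key (openVar Y' U) ((openVarIn Y' U).g ≫ g') ?_ inferInstance (fun y => hC' _) D _ hD
    rw [Category.assoc, comm', (openVarIn Y' U).comm]

variable {Λ : Type} [CommRing Λ] (T : Theory.{v} k Λ)

variable [IsNoetherianRing Λ]

theorem affine_of_cubics (e : ℤ) (h : T.Cubics e) (b : ℕ) (A : Type) [CommRing A] [Algebra k A]
    [Algebra.FiniteType k A] : T.FG e b (aff k A) := by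
  obtain ⟨N, m, f, φ, hφ, hk, hd⟩ := t_QUAD k A
  obtain ⟨f', φ', hφ', hk', hd'⟩ := t_PAD k A N m f φ hφ hk hd (N + m + 3 * b + 1)
    (2 * N + 2 * m + 3 * b + 1 + 1) (by omega) (by omega)
  obtain ⟨F, hF, ⟨ε⟩⟩ := t_CUV k (N + m + 3 * b + 1) (2 * N + 2 * m + 3 * b + 1 + 1)
    (N + m + 2 * b + 1) (by omega) f' hd'
  have h2 : 2 * (N + m + 2 * b + 1) = b + (2 * N + 2 * m + 3 * b + 1 + 1) := by omega
  have hs : Smooth (cubic F).f := t_SMI k _ _ ε.symm (t_SMO t_VRL k _ _ f')
  have h3 : T.FG e (2 * (N + m + 2 * b + 1)) (cubic F) := h (N + m + 2 * b + 1) F hF hs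
  rw [h2] at h3
  exact red T e b (2 * N + 2 * m + 3 * b + 1) f' φ' hφ' hk' ((T.fg_viso e _ (viso ε)).mpr h3)

/-- ONE GROUP. The homology in degree `2 b + e` with twist `b` of all varieties, for all `b`, is
finitely generated if and only if it is for the smooth cubic hypersurfaces. -/
theorem one_group [Finite k] (e : ℤ) :
    (∀ (b : ℕ) (X : Var k), T.FG e b X) ↔ T.Cubics e := by
  refine ⟨fun h n F _ _ => h _ _, fun h b X => ?_⟩
  refine induct (T.FG e b) (T.fg_empty e b) (fun a j hc hZ hU => T.fg_glue e b a j hc hZ hU) ?_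
    X ⊤ X (𝟙 _) (Category.id_comp _) inferInstance (fun _ => trivial)
  intro V _ hV _ _
  obtain ⟨A, _, _, _, ⟨s⟩⟩ := exists_aff V
  exact (T.fg_viso e b s).mp (affine_of_cubics T e h b A)

end WCub
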