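import Pool.Agent.WCub.Chain
import Pool.Agent.CUB.V_RED

/-!
# The reduction of an affine variety to its double cover
-/

set_option autoImplicit false

open Polynomial CategoryTheory AlgebraicGeometry

namespace WCub

open Pool.Agent.Lib_helper55.Beil CUB

universe v

variable {k : Type} [Field k] {Λ : Type} [CommRing Λ] (T : Theory.{v} k Λ)

/-- The pull-back to the product with an affine space. -/
theorem exists_lam (R : Type) [CommRing R] [Algebra k R] [Algebra.FiniteType k R] (e : ℤ)
    (b m : ℕ) : ∃ lam : T.H e b (aff k R) →ₗ[Λ] T.H e (b + m) (aff k (MvPolynomial (Fin m) R)),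
      Function.Injective lam := by
  induction m with
  | zero =>
    let ε : R ≃ₐ[k] MvPolynomial (Fin 0) R :=
      ((MvPolynomial.isEmptyAlgEquiv R (Fin 0)).restrictScalars k).symm
    exact ⟨T.push e b (vcl ε.symm), (T.push_viso_bijective e b (viso ε.symm)).injective⟩
  | succ m ih =>
    obtain ⟨lam, hlam⟩ := ih
    let A := MvPolynomial (Fin m) R
    let B := MvPolynomial (Fin (m + 1)) R
    let ε : B ≃ₐ[k] A[X] := (MvPolynomial.finSuccEquiv R m).restrictScalars k
    let φ : A →ₐ[k] B := (ε.symm : _ →ₐ[k] _).comp (CUB.CC k A)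
    let L : AffineLine (aff k B) (aff k A) := toLine (lineE φ ε.symm.toRingEquiv (fun _ => rfl))
    exact ⟨(T.line e (b + m) L).comp lam, (T.homotopy.1 e (b + m) _ _ L).injective.comp hlam⟩

/-- If the homology of the double cover `y ^ 2 - y = ∑ t_j f_j` is finitely generated, so is the
homology of the variety defined by the equations `f_j = 0`. -/
theorem red {R R' : Type} [CommRing R] [CommRing R'] [Algebra k R] [Algebra k R']
    [Algebra.FiniteType k R] [Algebra.FiniteType k R'] [IsNoetherianRing Λ] (e : ℤ) (b m : ℕ)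
    (f : Fin (m + 1) → R) (ψ : R →ₐ[k] R') (hψ : Function.Surjective ψ)
    (hk : RingHom.ker ψ.toRingHom = Ideal.span (Set.range f))
    (hF : T.FG e (b + (m + 1)) (aff k (VR R f))) : T.FG e b (aff k R') := by
  have h : ∀ j, ψ (f j) = 0 := by
    intro j
    have h1 : f j ∈ RingHom.ker ψ.toRingHom := by
      rw [hk]
      exact Ideal.subset_span ⟨j, rfl⟩
    exact h1
  obtain ⟨lam, hlam⟩ := exists_lam T R' e b (m + 1)
  have h' : ∀ j, AlgHom.id k R' (ψ (f j)) = 0 := h
  -- notation
  let N := b + (m + 1)
  let g : Fin (m + 1) → R' := fun j => ψ (f j)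
  let s0 := sheet (AlgHom.id k R') g h' false
  let s1 := sheet (AlgHom.id k R') g h' true
  have hs0 : Function.Surjective s0 := sheet_surjective _ Function.surjective_id _ h' false
  have hs1 : Function.Surjective s1 := sheet_surjective _ Function.surjective_id _ h' true
  let I0 := T.push e N (clo s0 hs0)
  let I1 := T.push e N (clo s1 hs1)
  let V := T.push e N (clo (VRmap ψ f) (VRmap_surjective ψ hψ f))
  let τ := T.push e N (vcl (tau (k := k) (lin g)))
  -- the sheets are exchanged
  have hτ0 : ∀ x, τ (I0 x) = I1 x := fun x => T.push_comp e N (clo s0 hs0)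
    (vcl (tau (k := k) (lin g))) (clo s1 hs1) (by
      change spm s0 ≫ spm (tauH (k := k) (lin g)) = spm s1
      rw [spm_comp]
      exact congrArg spm (sheet_tau (AlgHom.id k R') g h')) x
  have hττ : ∀ x, τ (τ x) = x := fun x => P_tau_tau T e N (lin g) x
  have hτ1 : ∀ x, τ (I1 x) = I0 x := fun x => by rw [← hτ0, hττ]
  -- the map
  let θ : T.H e b (aff k R') →ₗ[Λ] T.H e N (aff k (VR R f)) := V.comp ((I1 - I0).comp lam)
  refine finite_of_torsion θ hF (2 ^ (m + 1)) (T.torsion e b (aff k R') _ (by positivity)) ?_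
  intro z hz
  have hα : 2 ^ (List.finRange (m + 1)).length • (I1 (lam z) - I0 (lam z)) = 0 := by
    refine hchain T e (b + m) m (List.finRange (m + 1)) f ψ hψ ?_ (I1 (lam z) - I0 (lam z)) ?_ ?_
    · rw [hk]
      congr 1
      ext x
      simp
    · change τ (I1 (lam z) - I0 (lam z)) = -(I1 (lam z) - I0 (lam z))
      rw [map_sub, hτ0, hτ1, neg_sub]
    · exact hz
  rw [List.length_finRange] at hα
  -- restriction to the first sheet
  have hloc := isLocalization_sheet_false (k := k) g h'
  have hc := complementary_away s0 (1 - yy (lin g)) hloc s1 hs1 (ker_sheet_true g h')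
  have e0 : T.res e N (opn s0 (isOpenImmersion_spm s0 _ hloc)) (I0 (lam z)) = lam z :=
    T.clopen e N (clo s0 hs0) (opn s0 (isOpenImmersion_spm s0 _ hloc)) rfl (lam z)
  have e1 : T.res e N (opn s0 (isOpenImmersion_spm s0 _ hloc)) (I1 (lam z)) = 0 :=
    (T.exact_X e N _ _ hc).apply_apply_eq_zero (lam z)
  have e2 := congrArg (T.res e N (opn s0 (isOpenImmersion_spm s0 _ hloc))) hα
  rw [map_nsmul, map_sub, e0, e1, zero_sub, map_zero, smul_neg, neg_eq_zero] at e2
  apply hlam
  rw [map_nsmul, map_zero]
  exact e2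

end WCub
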