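import Pool.Agent.WCub.Basic
import Pool.Agent.CUB.V_CHAIN
import Pool.Agent.CUB.A_VRL
import Pool.Agent.CUB.B_KERQ

/-!
# Anti-invariant homology classes of double covers
-/

set_option autoImplicit false

open Polynomial CategoryTheory AlgebraicGeometry

namespace WCub

open Pool.Agent.Lib_helper55.Beil CUB

universe v

variable {k : Type} [Field k] {Λ : Type} [CommRing Λ] (T : Theory.{v} k Λ)

section Abs

variable {A B Z S : Type} [CommRing A] [CommRing B] [CommRing Z] [CommRing S]
  [Algebra k A] [Algebra k B] [Algebra k Z] [Algebra k S]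
  [Algebra.FiniteType k A] [Algebra.FiniteType k B] [Algebra.FiniteType k Z]
  [Algebra.FiniteType k S]

lemma hstep_abs (e : ℤ) (b : ℕ) (a : A) (φ : A →ₐ[k] B)
    (hφ : @IsLocalization.Away A _ a B _ φ.toRingHom.toAlgebra)
    (π : A →ₐ[k] Z) (hπ : Function.Surjective π) (hk : RingHom.ker π.toRingHom = Ideal.span {a})
    (σ : S →ₐ[k] B) (ε : S[X] ≃+* B) (he : ∀ s, ε (C s) = σ s)
    (tA : A ≃ₐ[k] A) (tB : B ≃ₐ[k] B) (tZ : Z ≃ₐ[k] Z)
    (h1 : ∀ x, φ (tA x) = tB (φ x)) (h2 : ∀ x, π (tA x) = tZ (π x)) (h3 : ∀ s, tB (σ s) = σ s)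
    (α : T.H e (b + 1) (aff k Z)) (ht : T.push e (b + 1) (vcl tZ) α = -α)
    (hz : T.push e (b + 1) (clo π hπ) α = 0) : 2 • α = 0 := by
  have hc := complementary_away φ a hφ π hπ hk
  obtain ⟨u, rfl⟩ := (T.exact_Z e (b + 1) _ _ hc α).mp hz
  obtain ⟨m0, hm0⟩ := (T.homotopy.1 (e + 1) b _ _ (toLine (lineE σ ε he))).surjective u
  have hu : T.push (e + 1) (b + 1) (vcl tB) u = u := by
    rw [← hm0]
    have hid : T.P (e + 1) b (toIsom (VIso.refl (aff k S))).cl m0 = m0 :=
      T.push_id (e + 1) b _ rfl m0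
    have := T.homotopy.2 (e + 1) b _ _ _ _ (toLine (lineE σ ε he)) (toLine (lineE σ ε he))
      (toIsom (viso tB)) (toIsom (VIso.refl (aff k S)))
      (by
        have h4 : σ = (tB : B →ₐ[k] B).comp σ := AlgHom.ext fun s => (h3 s).symm
        change spm (tB : B →ₐ[k] B) ≫ spm σ = spm σ ≫ 𝟙 _
        rw [spm_comp, ← h4, Category.comp_id]) m0
    rw [hid] at this
    exact this
  have hnat := T.natural e (b + 1) _ _ _ _ _ _ _ _ hc _ _ hc (toIsom (viso tZ))
    (toIsom (viso tB)) (toIsom (viso tA))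
    (by
      change spm (tZ : Z →ₐ[k] Z) ≫ spm π = spm π ≫ spm (tA : A →ₐ[k] A)
      rw [spm_comp, spm_comp]
      congr 1
      exact AlgHom.ext fun x => (h2 x).symm)
    (by
      change spm (tB : B →ₐ[k] B) ≫ spm φ = spm φ ≫ spm (tA : A →ₐ[k] A)
      rw [spm_comp, spm_comp]
      congr 1
      exact AlgHom.ext fun x => (h1 x).symm) u
  have h5 : T.P (e + 1) (b + 1) (toIsom (viso tB)).cl u = u := hu
  rw [h5] at hnat
  have ht' : T.P e (b + 1) (toIsom (viso tZ)).cl (T.bd e (b + 1) _ _ hc u) =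
      -(T.bd e (b + 1) _ _ hc u) := ht
  have h6 : T.D e (b + 1) _ _ hc u = T.bd e (b + 1) _ _ hc u := rfl
  rw [h6, ht'] at hnat
  rw [two_nsmul]
  nth_rw 1 [← hnat]
  exact neg_add_cancel _

end Abs

/-- One step. -/
theorem hstep {R R' : Type} [CommRing R] [CommRing R'] [Algebra k R]
    [Algebra k R'] [Algebra.FiniteType k R] [Algebra.FiniteType k R'] (e : ℤ) (b m : ℕ)
    (f : Fin (m + 1) → R) (l : Fin (m + 1)) (ψ : R →ₐ[k] R') (hψ : Function.Surjective ψ)
    (hk : RingHom.ker ψ.toRingHom = Ideal.span {f l})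
    (α : T.H e (b + 1) (aff k (VR R' (fun j => ψ (f j)))))
    (ht : T.push e (b + 1) (vcl (tau (lin fun j => ψ (f j)))) α = -α)
    (hz : T.push e (b + 1) (clo (VRmap ψ f) (VRmap_surjective ψ hψ f)) α = 0) : 2 • α = 0 := by
  let a : VR R f := VRbase (k := k) f (f l)
  let φ : VR R f →ₐ[k] Localization.Away a := awayHom k a
  let σ0 : R →ₐ[k] Localization.Away (f l) := awayHom k (f l)
  obtain ⟨e', he1, he2, he3⟩ := t_VRL k R (Localization.Away (f l)) (Localization.Away a) m f l σ0 φ
    (isLocalization_awayHom _) (isLocalization_awayHom _)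
  let σ : MvPolynomial (Fin m) (Localization.Away (f l)) →ₐ[k] Localization.Away a :=
    (e'.symm : _ →ₐ[k] _).comp (CUB.CC k _)
  let tB : Localization.Away a ≃ₐ[k] Localization.Away a :=
    IsLocalization.algEquivOfAlgEquiv (M := Submonoid.powers a) (T := Submonoid.powers a)
      (Localization.Away a) (Localization.Away a) (tau (k := k) (lin f)) (by
        rw [Submonoid.map_powers]
        congr 1
        exact tau_VRbase f (f l))
  have htB : ∀ x, tB (φ x) = φ (tau (k := k) (lin f) x) := fun x =>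
    IsLocalization.algEquivOfAlgEquiv_eq _ x
  have hker : RingHom.ker (VRmap ψ f).toRingHom = Ideal.span {a} := by
    rw [t_KERQ.2.2.1 k R R' (m + 1) f ψ, hk, Ideal.map_span, Set.image_singleton]
    rfl
  refine hstep_abs T e b a φ (isLocalization_awayHom _) (VRmap ψ f) (VRmap_surjective ψ hψ f)
    hker σ e'.symm.toRingEquiv (fun s => rfl) (tau (lin f)) tB (tau (lin fun j => ψ (f j)))
    (fun x => (htB x).symm) (VRmap_tau f ψ) ?_ α ht hz
  have hC : ∀ r : R, σ (MvPolynomial.C (σ0 r)) = φ (VRbase (k := k) f r) := fun r => by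
    change e'.symm (C (MvPolynomial.C (σ0 r))) = _
    rw [← he1 r, AlgEquiv.symm_apply_apply]
  have hX : ∀ j : Fin m, σ (MvPolynomial.X j) =
      φ (algebraMap (MvPolynomial (Fin (m + 1)) R) (VR R f) (MvPolynomial.X (l.succAbove j))) :=
    fun j => by
      change e'.symm (C (MvPolynomial.X j)) = _
      rw [← he2 j, AlgEquiv.symm_apply_apply]
  have key : tB.toRingEquiv.toRingHom.comp σ.toRingHom = σ.toRingHom := by
    apply MvPolynomial.ringHom_ext
    · intro s
      have h7 : (tB.toRingEquiv.toRingHom.comp σ.toRingHom).comp MvPolynomial.C =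
          σ.toRingHom.comp MvPolynomial.C := by
        apply IsLocalization.ringHom_ext (Submonoid.powers (f l))
        ext1 r
        change tB (σ (MvPolynomial.C (σ0 r))) = σ (MvPolynomial.C (σ0 r))
        rw [hC, htB, tau_VRbase]
      exact RingHom.congr_fun h7 s
    · intro j
      change tB (σ (MvPolynomial.X j)) = σ (MvPolynomial.X j)
      rw [hX, htB, tau_VRalg]
  exact fun s => RingHom.congr_fun key s

end WCub
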